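import Pool.Agent.Lib.MP_305fdd_al.Su.Dual.AF
import Pool.Agent.Lib.MP_305fdd_al.Surf.CntH

/-!
# MP_305fdd_al, surface groups, block DUAL: the number of the crossed homomorphisms

(ZC) `|Z¹(L; P)| * |I P| = |P| ^ (2 g)` for every group `L` with the same finite quotients as the
closed surface group of genus `g` and every finite module `P`, where `I P` is generated by the
`p - l p`.
-/

set_option autoImplicit false
set_option linter.unusedSectionVars false

namespace Pool.Agent.SuD

open Pool.Agent.Lib.MP_305fdd_al Pool.Agent.MP_305fdd_al Pool.Agent.SurfCnt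

open scoped commutatorElement

section sd

variable {Q P : Type} [Group Q] [AddCommGroup P] [DistribMulAction Q P]

/-- the translation part of the product of the commutators of the `(u i, a i)`, `(v i, b i)` -/
def sD {g : ℕ} (a b : Fin g → Q) (u v : Fin g → P) : P :=
  (List.ofFn fun i => ⁅(⟨u i, a i⟩ : AF Q P), (⟨v i, b i⟩ : AF Q P)⁆).prod.v

/-- the product of the commutators -/
def sR {g : ℕ} (a b : Fin g → Q) : Q := (List.ofFn fun i => ⁅a i, b i⁆).prod

theorem prod_q {g : ℕ} (x y : Fin g → AF Q P) :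
    (List.ofFn fun i => ⁅x i, y i⁆).prod.q = sR (fun i => (x i).q) fun i => (y i).q := by
  have h := map_prod_comm (AF.pr Q P) x y
  exact h

theorem comm_v (x y : AF Q P) : ⁅x, y⁆.v = (x.v - (x.q * y.q * x.q⁻¹) • x.v) +
    (x.q • y.v - ⁅x.q, y.q⁆ • y.v) := by
  simp only [commutatorElement_def, AF.mul_v, AF.mul_q, AF.inv_v, AF.inv_q, smul_neg, mul_smul]
  abel

theorem sR_succ {g : ℕ} (a b : Fin (g + 1) → Q) : sR a b =
    sR (fun i => a (Fin.castSucc i)) (fun i => b (Fin.castSucc i)) *
      ⁅a (Fin.last g), b (Fin.last g)⁆ := by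
  unfold sR
  rw [List.ofFn_succ', List.concat_eq_append, List.prod_append, List.prod_singleton]

theorem sD_succ {g : ℕ} (a b : Fin (g + 1) → Q) (u v : Fin (g + 1) → P) : sD a b u v =
    sD (fun i => a (Fin.castSucc i)) (fun i => b (Fin.castSucc i)) (fun i => u (Fin.castSucc i))
      (fun i => v (Fin.castSucc i)) +
    sR (fun i => a (Fin.castSucc i)) (fun i => b (Fin.castSucc i)) •
      ((u (Fin.last g) - (a (Fin.last g) * b (Fin.last g) * (a (Fin.last g))⁻¹) • u (Fin.last g)) +
        (a (Fin.last g) • v (Fin.last g) - ⁅a (Fin.last g), b (Fin.last g)⁆ • v (Fin.last g))) := by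
  unfold sD
  rw [List.ofFn_succ', List.concat_eq_append, List.prod_append, List.prod_singleton, AF.mul_v,
    comm_v, prod_q]

theorem sD_zero (a b : Fin 0 → Q) (u v : Fin 0 → P) : sD a b u v = 0 := by
  simp [sD]

theorem sD_add : ∀ {g : ℕ} (a b : Fin g → Q) (u v u' v' : Fin g → P),
    sD a b (u + u') (v + v') = sD a b u v + sD a b u' v' := by
  intro g
  induction g with
  | zero => intro a b u v u' v'; simp [sD_zero]
  | succ g ih =>
    intro a b u v u' v'
    have h := ih (fun i => a (Fin.castSucc i)) (fun i => b (Fin.castSucc i))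
      (fun i => u (Fin.castSucc i)) (fun i => v (Fin.castSucc i))
      (fun i => u' (Fin.castSucc i)) (fun i => v' (Fin.castSucc i))
    rw [sD_succ, sD_succ, sD_succ]
    have h2 : (fun i => (u + u') (Fin.castSucc i)) = (fun i => u (Fin.castSucc i)) +
      fun i => u' (Fin.castSucc i) := rfl
    have h3 : (fun i => (v + v') (Fin.castSucc i)) = (fun i => v (Fin.castSucc i)) +
      fun i => v' (Fin.castSucc i) := rfl
    rw [h2, h3, h]
    simp only [Pi.add_apply, smul_add, smul_sub]
    abel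

/-- the relator map as a homomorphism -/
def sDh {g : ℕ} (a b : Fin g → Q) : (Fin g → P) × (Fin g → P) →+ P where
  toFun x := sD a b x.1 x.2
  map_zero' := by
    have h := sD_add (P := P) a b 0 0 0 0
    rw [add_zero] at h
    exact left_eq_add.1 h
  map_add' x y := sD_add a b x.1 x.2 y.1 y.2

/-- the group generated by the `a i`, `b i` -/
def gp {g : ℕ} (a b : Fin g → Q) : Subgroup Q := Subgroup.closure (Set.range a ∪ Set.range b)

theorem a_mem_gp {g : ℕ} (a b : Fin g → Q) (i : Fin g) : a i ∈ gp a b :=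
  Subgroup.subset_closure (Or.inl ⟨i, rfl⟩)

theorem b_mem_gp {g : ℕ} (a b : Fin g → Q) (i : Fin g) : b i ∈ gp a b :=
  Subgroup.subset_closure (Or.inr ⟨i, rfl⟩)

theorem gp_cs_le {g : ℕ} (a b : Fin (g + 1) → Q) :
    gp (fun i => a (Fin.castSucc i)) (fun i => b (Fin.castSucc i)) ≤ gp a b := by
  unfold gp
  rw [Subgroup.closure_le]
  rintro _ (⟨i, rfl⟩ | ⟨i, rfl⟩)
  · exact a_mem_gp a b _
  · exact b_mem_gp a b _

theorem comm_mem {H : Subgroup Q} {x y : Q} (hx : x ∈ H) (hy : y ∈ H) : ⁅x, y⁆ ∈ H := by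
  rw [commutatorElement_def]
  exact H.mul_mem (H.mul_mem (H.mul_mem hx hy) (H.inv_mem hx)) (H.inv_mem hy)

theorem sR_mem {g : ℕ} (a b : Fin g → Q) : sR a b ∈ gp a b := by
  unfold sR
  apply Subgroup.list_prod_mem
  intro x hx
  rw [List.mem_ofFn] at hx
  obtain ⟨i, rfl⟩ := hx
  exact comm_mem (a_mem_gp a b i) (b_mem_gp a b i)

theorem sD_mem : ∀ {g : ℕ} (a b : Fin g → Q) (u v : Fin g → P), sD a b u v ∈ IP P (gp a b) := by
  intro g
  induction g with
  | zero => intro a b u v; rw [sD_zero]; exact AddSubgroup.zero_mem _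
  | succ g ih =>
    intro a b u v
    rw [sD_succ]
    have hR := gp_cs_le a b (sR_mem (fun i => a (Fin.castSucc i)) fun i => b (Fin.castSucc i))
    have ha := a_mem_gp a b (Fin.last g)
    have hb := b_mem_gp a b (Fin.last g)
    refine AddSubgroup.add_mem _ (IP_mono (gp_cs_le a b) (ih _ _ _ _)) (IP_smul hR ?_)
    refine AddSubgroup.add_mem _ (sub_mem_IP ?_ _) ?_
    · exact Subgroup.mul_mem _ (Subgroup.mul_mem _ ha hb) (Subgroup.inv_mem _ ha)
    · have h1 := sub_mem_IP (P := P) (comm_mem ha hb) (v (Fin.last g))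
      have h2 := sub_mem_IP (P := P) ha (v (Fin.last g))
      have h3 := AddSubgroup.sub_mem _ h1 h2
      rwa [show v (Fin.last g) - ⁅a (Fin.last g), b (Fin.last g)⁆ • v (Fin.last g) -
        (v (Fin.last g) - a (Fin.last g) • v (Fin.last g)) = a (Fin.last g) • v (Fin.last g) -
          ⁅a (Fin.last g), b (Fin.last g)⁆ • v (Fin.last g) by abel] at h3

/-- two generators: the group generated by `a b a⁻¹` and `[a, b] a⁻¹` contains `a` and `b` -/
theorem gens_two (a b : Q) : a ∈ Subgroup.closure {a * b * a⁻¹, ⁅a, b⁆ * a⁻¹} ∧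
    b ∈ Subgroup.closure {a * b * a⁻¹, ⁅a, b⁆ * a⁻¹} := by
  set H := Subgroup.closure {a * b * a⁻¹, ⁅a, b⁆ * a⁻¹} with hH
  have hx : a * b * a⁻¹ ∈ H := Subgroup.subset_closure (Or.inl rfl)
  have hy : ⁅a, b⁆ * a⁻¹ ∈ H := Subgroup.subset_closure (Or.inr rfl)
  have h1 : (⁅a, b⁆ * a⁻¹)⁻¹ * (a * b * a⁻¹) ∈ H := H.mul_mem (H.inv_mem hy) hx
  have h1' : (⁅a, b⁆ * a⁻¹)⁻¹ * (a * b * a⁻¹) = a * b := by
    rw [commutatorElement_def]; group
  rw [h1'] at h1
  have h2 : (a * b * a⁻¹)⁻¹ * (a * b) ∈ H := H.mul_mem (H.inv_mem hx) h1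
  have h2' : (a * b * a⁻¹)⁻¹ * (a * b) = a := by group
  rw [h2'] at h2
  have h3 : a⁻¹ * (a * b) ∈ H := H.mul_mem (H.inv_mem h2) h1
  rw [inv_mul_cancel_left] at h3
  exact ⟨h2, h3⟩

theorem IP_le_range : ∀ {g : ℕ} (a b : Fin g → Q), IP P (gp a b) ≤ (sDh (P := P) a b).range := by
  intro g
  induction g with
  | zero =>
    intro a b
    apply IP_le_of_gens
    rintro q (⟨i, _⟩ | ⟨i, _⟩)
    · exact i.elim0
    · exact i.elim0
  | succ g ih =>
    intro a b
    set a' : Fin g → Q := fun i => a (Fin.castSucc i) with ha'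
    set b' : Fin g → Q := fun i => b (Fin.castSucc i) with hb'
    set x := a (Fin.last g) with hx
    set y := b (Fin.last g) with hy
    set N := (sDh (P := P) a b).range with hN
    have h1 : IP P (gp a' b') ≤ N := by
      intro z hz
      obtain ⟨⟨u, v⟩, huv⟩ := ih a' b' hz
      change sD a' b' u v = z at huv
      refine ⟨(Fin.snoc (α := fun _ => P) u 0, Fin.snoc (α := fun _ => P) v 0), ?_⟩
      change sD a b _ _ = z
      rw [sD_succ]
      simp only [Fin.snoc_castSucc, Fin.snoc_last, smul_zero, sub_zero, add_zero]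
      exact huv
    have h2 : ∀ u v : P, (u - (x * y * x⁻¹) • u) + (x • v - ⁅x, y⁆ • v) ∈ N := by
      intro u v
      have h3 : sR a' b' • ((u - (x * y * x⁻¹) • u) + (x • v - ⁅x, y⁆ • v)) ∈ N := by
        refine ⟨(Fin.snoc (α := fun _ => P) 0 u, Fin.snoc (α := fun _ => P) 0 v), ?_⟩
        change sD a b _ _ = _
        rw [sD_succ]
        simp only [Fin.snoc_castSucc, Fin.snoc_last]
        have h4 : sD a' b' (fun _ => (0 : P)) (fun _ => (0 : P)) = 0 := (sDh (P := P) a' b').map_zero
        have h5 : (fun i : Fin g => (0 : Fin g → P) i) = fun _ => (0 : P) := rfl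
        rw [h5, h4, zero_add]
      have h4 := h1 (sub_mem_IP (P := P) (sR_mem a' b')
        ((u - (x * y * x⁻¹) • u) + (x • v - ⁅x, y⁆ • v)))
      have h5 := N.add_mem h4 h3
      rwa [sub_add_cancel] at h5
    have h3 : IP P (Subgroup.closure {x * y * x⁻¹, ⁅x, y⁆ * x⁻¹}) ≤ N := by
      apply IP_le_of_gens
      rintro q (rfl | rfl) p
      · have := h2 p 0
        simpa using this
      · have := h2 0 (x⁻¹ • p)
        simpa [mul_smul] using this
    obtain ⟨h4, h5⟩ := gens_two x y
    apply IP_le_of_gens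
    rintro q (⟨i, rfl⟩ | ⟨i, rfl⟩) p
    · induction i using Fin.lastCases with
      | last => exact h3 (sub_mem_IP h4 p)
      | cast i => exact h1 (sub_mem_IP (a_mem_gp a' b' i) p)
    · induction i using Fin.lastCases with
      | last => exact h3 (sub_mem_IP h5 p)
      | cast i => exact h1 (sub_mem_IP (b_mem_gp a' b' i) p)

theorem range_sDh {g : ℕ} (a b : Fin g → Q) : (sDh (P := P) a b).range = IP P (gp a b) := by
  apply le_antisymm
  · rintro _ ⟨x, rfl⟩
    exact sD_mem a b x.1 x.2
  · exact IP_le_range a b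

end sd

section count

variable {g : ℕ} {Q : Type} [Group Q] (θ : SurfG g →* Q) (P : Type) [AddCommGroup P]
  [DistribMulAction Q P]

/-- the images of the generators `a_i` -/
def ga {Q : Type} [Group Q] (θ : SurfG g →* Q) : Fin g → Q :=
  fun i => θ (PresentedGroup.of (i, false))

/-- the images of the generators `b_i` -/
def gb {Q : Type} [Group Q] (θ : SurfG g →* Q) : Fin g → Q :=
  fun i => θ (PresentedGroup.of (i, true))

theorem sR_eq_one (θ : SurfG g →* Q) : sR (ga θ) (gb θ) = 1 := (homEquiv g Q θ).2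

theorem gp_eq_range (θ : SurfG g →* Q) : gp (ga θ) (gb θ) = θ.range := by
  unfold gp
  rw [MonoidHom.range_eq_map, ← PresentedGroup.closure_range_of, MonoidHom.map_closure]
  congr 1
  ext x
  constructor
  · rintro (⟨i, rfl⟩ | ⟨i, rfl⟩)
    · exact ⟨_, ⟨(i, false), rfl⟩, rfl⟩
    · exact ⟨_, ⟨(i, true), rfl⟩, rfl⟩
  · rintro ⟨_, ⟨⟨i, b⟩, rfl⟩, rfl⟩
    cases b
    · exact Or.inl ⟨i, rfl⟩
    · exact Or.inr ⟨i, rfl⟩

theorem symm_of (G : Type) [Group G]
    (t : {t : Fin g → G × G // (List.ofFn fun i => ⁅(t i).1, (t i).2⁆).prod = 1})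
    (x : Fin g × Bool) : (homEquiv g G).symm t (PresentedGroup.of x) =
      if x.2 then (t.1 x.1).2 else (t.1 x.1).1 := by
  have h : ∀ r ∈ ({srel g} : Set (FreeGroup (Fin g × Bool))),
      (FreeGroup.lift fun x => if x.2 = true then (t.1 x.1).2 else (t.1 x.1).1) r = 1 := by
    intro r hr
    rw [Set.mem_singleton_iff.1 hr]
    unfold srel
    rw [map_prod_comm]
    simpa using t.2
  exact PresentedGroup.toGroup.of h

/-- crossed homomorphisms of the surface group are the solutions of the linear equation -/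
def crsKer : Crs θ P ≃ (sDh (P := P) (ga θ) (gb θ)).ker where
  toFun c := ⟨(fun i => c.1 (PresentedGroup.of (i, false)),
      fun i => c.1 (PresentedGroup.of (i, true))), by
    have h := (homEquiv g (AF Q P) (Crs.hom c)).2
    exact congrArg AF.v h⟩
  invFun x := (crsEquiv θ P).symm ⟨(homEquiv g (AF Q P)).symm
      ⟨fun i => (⟨x.1.1 i, ga θ i⟩, ⟨x.1.2 i, gb θ i⟩), by
        apply AF.ext
        · exact x.2
        · rw [prod_q]
          exact sR_eq_one θ⟩, by
    apply PresentedGroup.ext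
    rintro ⟨i, b⟩
    rw [MonoidHom.comp_apply, symm_of]
    cases b
    · rfl
    · rfl⟩
  left_inv c := by
    apply (crsEquiv θ P).injective
    rw [Equiv.apply_symm_apply]
    apply Subtype.ext
    apply PresentedGroup.ext
    rintro ⟨i, b⟩
    rw [symm_of]
    cases b
    · rfl
    · rfl
  right_inv x := by
    apply Subtype.ext
    apply Prod.ext
    · funext i
      show AF.v ((homEquiv g (AF Q P)).symm _ (PresentedGroup.of (i, false))) = _
      rw [symm_of]
      rfl
    · funext i
      show AF.v ((homEquiv g (AF Q P)).symm _ (PresentedGroup.of (i, true))) = _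
      rw [symm_of]
      rfl

theorem card_hom_eq {A B : Type} [AddGroup A] [AddGroup B] [Finite A] (f : A →+ B) :
    Nat.card f.ker * Nat.card f.range = Nat.card A := by
  have h1 : Nat.card (A ⧸ f.ker) = Nat.card f.range :=
    Nat.card_congr (QuotientAddGroup.quotientKerEquivRange f).toEquiv
  rw [← h1, mul_comm]
  exact (AddSubgroup.card_eq_card_quotient_mul_card_addSubgroup f.ker).symm

/-- (ZC) for the surface group -/
theorem card_Crs_surf [Finite P] :
    Nat.card (Crs θ P) * Nat.card (IP P θ.range) = Nat.card P ^ (2 * g) := by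
  rw [← gp_eq_range, ← range_sDh, Nat.card_congr (crsKer θ P), card_hom_eq, Nat.card_prod,
    Nat.card_fun, Nat.card_fin, ← pow_add]
  congr 1
  omega

end count

/-- (ZC) for every group with the same finite quotients as the surface group (given by a natural
bijection) -/
theorem card_Crs {g : ℕ} {L : Type} [Group L] (Φ : NatBij L (SurfG g)) {Q : Type} [Group Q]
    [Finite Q] (θ : L →* Q) (P : Type) [AddCommGroup P] [DistribMulAction Q P] [Finite P] :
    Nat.card (Crs θ P) * Nat.card (IP P θ.range) = Nat.card P ^ (2 * g) := by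
  have h1 : Nat.card (Crs θ P) = Nat.card (Crs (Φ.toFun Q θ) P) := by
    rw [Nat.card_congr (crsEquiv θ P), Nat.card_congr (crsEquiv (Φ.toFun Q θ) P)]
    exact Φ.card_lifts (AF.pr Q P) θ
  rw [h1, ← Φ.range_eq θ]
  exact card_Crs_surf (Φ.toFun Q θ) P

end Pool.Agent.SuD
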