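import Pool.Agent.Lib.MP_305fdd_al.NatBij

/-!
# MP_305fdd_al, surface groups, block DUAL: crossed homomorphisms and the affine group

`AF Q P` : the semidirect product of the module `P` and the group `Q`.  `Crs θ P`: the crossed
homomorphisms `L → P`, where `L` acts on `P` through `θ : L →* Q`.  `IP P H` : the subgroup of `P`
generated by the `p - q p`, `q ∈ H`.
-/

set_option autoImplicit false
set_option linter.unusedSectionVars false

namespace Pool.Agent.SuD

open Pool.Agent.Lib.MP_305fdd_al Pool.Agent.MP_305fdd_al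

/-- the affine group: pairs `(v, q)`, `v` in the module `P`, `q` in the group `Q` -/
@[ext] structure AF (Q P : Type) where
  /-- translation part -/
  v : P
  /-- linear part -/
  q : Q

section af

variable {Q P : Type} [Group Q] [AddCommGroup P] [DistribMulAction Q P]

instance : Mul (AF Q P) := ⟨fun x y => ⟨x.v + x.q • y.v, x.q * y.q⟩⟩

instance : One (AF Q P) := ⟨⟨0, 1⟩⟩

instance : Inv (AF Q P) := ⟨fun x => ⟨-(x.q⁻¹ • x.v), x.q⁻¹⟩⟩

@[simp] theorem AF.mul_v (x y : AF Q P) : (x * y).v = x.v + x.q • y.v := rfl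
@[simp] theorem AF.mul_q (x y : AF Q P) : (x * y).q = x.q * y.q := rfl
@[simp] theorem AF.one_v : (1 : AF Q P).v = 0 := rfl
@[simp] theorem AF.one_q : (1 : AF Q P).q = 1 := rfl
@[simp] theorem AF.inv_v (x : AF Q P) : (x⁻¹).v = -(x.q⁻¹ • x.v) := rfl
@[simp] theorem AF.inv_q (x : AF Q P) : (x⁻¹).q = x.q⁻¹ := rfl

instance : Group (AF Q P) where
  mul_assoc x y z := by
    ext
    · simp only [AF.mul_v, AF.mul_q, smul_add, mul_smul]
      abel
    · exact mul_assoc _ _ _
  one_mul x := by
    ext
    · simp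
    · simp
  mul_one x := by
    ext
    · simp
    · simp
  inv_mul_cancel x := by
    ext
    · simp
    · simp

instance [Finite Q] [Finite P] : Finite (AF Q P) :=
  Finite.of_injective (fun x : AF Q P => (x.v, x.q)) fun x y h => by
    rw [Prod.mk.injEq] at h
    exact AF.ext h.1 h.2

/-- the linear part -/
def AF.pr (Q P : Type) [Group Q] [AddCommGroup P] [DistribMulAction Q P] : AF Q P →* Q where
  toFun x := x.q
  map_one' := rfl
  map_mul' _ _ := rfl

@[simp] theorem AF.pr_apply (x : AF Q P) : AF.pr Q P x = x.q := rfl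

end af

section crs

variable {L Q : Type} [Group L] [Group Q] (θ : L →* Q) (P : Type) [AddCommGroup P]
  [DistribMulAction Q P]

/-- crossed homomorphisms `L → P`; `L` acts on `P` through `θ : L →* Q` -/
def Crs : AddSubgroup (L → P) where
  carrier := {c | ∀ g h, c (g * h) = c g + θ g • c h}
  zero_mem' g h := by simp
  add_mem' {c d} hc hd g h := by
    simp only [Pi.add_apply, hc g h, hd g h, smul_add]
    abel
  neg_mem' {c} hc g h := by
    simp only [Pi.neg_apply, hc g h, smul_neg]
    abel

variable {θ P}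

theorem mem_Crs {c : L → P} : c ∈ Crs θ P ↔ ∀ g h, c (g * h) = c g + θ g • c h := Iff.rfl

theorem Crs.map_mul {c : L → P} (hc : c ∈ Crs θ P) (g h : L) : c (g * h) = c g + θ g • c h :=
  hc g h

theorem Crs.map_one {c : L → P} (hc : c ∈ Crs θ P) : c 1 = 0 := by
  have h := hc 1 1
  rw [one_mul, _root_.map_one, one_smul] at h
  exact left_eq_add.1 h

theorem Crs.map_inv {c : L → P} (hc : c ∈ Crs θ P) (g : L) : c g⁻¹ = -((θ g)⁻¹ • c g) := by
  have h := hc g⁻¹ g
  rw [inv_mul_cancel, Crs.map_one hc, _root_.map_inv] at h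
  exact eq_neg_of_add_eq_zero_left h.symm

/-- the homomorphism to the affine group -/
def Crs.hom (c : Crs θ P) : L →* AF Q P where
  toFun g := ⟨c.1 g, θ g⟩
  map_one' := by
    ext
    · exact Crs.map_one c.2
    · exact _root_.map_one θ
  map_mul' g h := by
    ext
    · exact c.2 g h
    · exact _root_.map_mul θ g h

variable (θ P) in
theorem lift_q (ψ : {ψ : L →* AF Q P // (AF.pr Q P).comp ψ = θ}) (g : L) : (ψ.1 g).q = θ g :=
  DFunLike.congr_fun ψ.2 g

variable (θ P) in
/-- crossed homomorphisms are lifts to the affine group -/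
def crsEquiv : Crs θ P ≃ {ψ : L →* AF Q P // (AF.pr Q P).comp ψ = θ} where
  toFun c := ⟨Crs.hom c, by ext g; rfl⟩
  invFun ψ := ⟨fun g => (ψ.1 g).v, fun g h => by
    show (ψ.1 (g * h)).v = (ψ.1 g).v + θ g • (ψ.1 h).v
    rw [_root_.map_mul, AF.mul_v, lift_q]⟩
  left_inv c := rfl
  right_inv ψ := by
    apply Subtype.ext
    ext g
    · rfl
    · exact (lift_q θ P ψ g).symm

/-- the principal crossed homomorphism of `p`: `g ↦ p - θ g • p` -/
def prc (θ : L →* Q) (p : P) : L → P := fun g => p - θ g • p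

theorem prc_mem (p : P) : prc θ p ∈ Crs θ P := by
  intro g h
  simp only [prc, _root_.map_mul, mul_smul, smul_sub]
  abel

variable (P) in
/-- the subgroup generated by the `p - q p`, `q ∈ H` -/
def IP (H : Subgroup Q) : AddSubgroup P :=
  AddSubgroup.closure {x | ∃ q ∈ H, ∃ p : P, x = p - q • p}

theorem sub_mem_IP {H : Subgroup Q} {q : Q} (hq : q ∈ H) (p : P) : p - q • p ∈ IP P H :=
  AddSubgroup.subset_closure ⟨q, hq, p, rfl⟩

theorem IP_mono {H K : Subgroup Q} (h : H ≤ K) : IP P H ≤ IP P K := by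
  apply AddSubgroup.closure_mono
  rintro x ⟨q, hq, p, rfl⟩
  exact ⟨q, h hq, p, rfl⟩

theorem IP_smul {H : Subgroup Q} {q : Q} (hq : q ∈ H) {x : P} (hx : x ∈ IP P H) :
    q • x ∈ IP P H := by
  have h := sub_mem_IP (P := P) hq x
  have h2 := (IP P H).sub_mem hx h
  rwa [sub_sub_cancel] at h2

/-- an additive subgroup `N` contains `IP P H` if it contains `p - q p` for generators `q` of `H` -/
theorem IP_le_of_gens {N : AddSubgroup P} {S : Set Q}
    (h : ∀ q ∈ S, ∀ p : P, p - q • p ∈ N) : IP P (Subgroup.closure S) ≤ N := by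
  have key : ∀ q ∈ Subgroup.closure S, ∀ p : P, p - q • p ∈ N := by
    intro q hq
    induction hq using Subgroup.closure_induction with
    | mem x hx => exact h x hx
    | one => intro p; rw [one_smul, sub_self]; exact N.zero_mem
    | mul x y _ _ hx hy =>
      intro p
      have h1 := N.add_mem (hx (y • p)) (hy p)
      rwa [show y • p - x • y • p + (p - y • p) = p - (x * y) • p by rw [mul_smul]; abel] at h1
    | inv x _ hx =>
      intro p
      have h1 := N.neg_mem (hx (x⁻¹ • p))
      rwa [smul_inv_smul, neg_sub] at h1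
  unfold IP
  rw [AddSubgroup.closure_le]
  rintro _ ⟨q, hq, p, rfl⟩
  exact key q hq p

end crs

end Pool.Agent.SuD
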